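import Pool.Agent.Lib.MP_67d80e_pr_g3.Ct7.D

/-!
Certificate in dimension 7: checks, part 1.
-/

set_option autoImplicit false

namespace Pool.Agent.Lib.MP_67d80e_pr_g3.Ct7

theorem cs1 : D.cS 1 = true := by decide +kernel

theorem cc1 : D.cC 1 = true := by decide +kernel

theorem cn1 : D.cN 1 = true := by decide +kernel

theorem ce1 : D.cE 1 = true := by decide +kernel

theorem cb1 : D.cB 1 = true := by decide +kernel


end Pool.Agent.Lib.MP_67d80e_pr_g3.Ct7
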