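import Pool.Agent.Lib.MP_67d80e_pr_g3.Ct7.D

/-!
Certificate in dimension 7: checks, part 3.
-/

set_option autoImplicit false

namespace Pool.Agent.Lib.MP_67d80e_pr_g3.Ct7

theorem cn2 : D.cN 2 = true := by decide +kernel

theorem ce2 : D.cE 2 = true := by decide +kernel

theorem cb2 : D.cB 2 = true := by decide +kernel

theorem cd2_0 : fa 4 21 (fun i => D.cDi 2 i) = true := by decide +kernel

theorem cs3 : D.cS 3 = true := by decide +kernel

theorem cc3 : D.cC 3 = true := by decide +kernel


end Pool.Agent.Lib.MP_67d80e_pr_g3.Ct7
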